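import Mathlib

set_option autoImplicit false

namespace Pool.Agent.Results.MP_6bb0fd_an.Counter

open Polynomial

/-- A real polynomial is hyperbolic if it is zero or all of its complex zeros are real. -/
def Hyperbolic (p : ℝ[X]) : Prop := p = 0 ∨ ∀ z : ℂ, aeval z p = 0 → z.im = 0

theorem sum_im (z : ℂ) (hz : z.im ≠ 0) (s : Multiset ℂ) (hs : ∀ r ∈ s, r.im = 0) :
    s = 0 ∨ ((s.map fun r => 1 / (z - r)).sum).im * z.im < 0 := by
  induction s using Multiset.induction_on with
  | empty => exact Or.inl rfl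
  | cons a s ih =>
    right
    have ha : a.im = 0 := hs a (Multiset.mem_cons_self _ _)
    have hne : z - a ≠ 0 := fun h => hz (by rw [sub_eq_zero.1 h]; exact ha)
    have h1 : (1 / (z - a)).im * z.im < 0 := by
      rw [one_div, Complex.inv_im, Complex.sub_im, ha, sub_zero]
      have h2 : 0 < Complex.normSq (z - a) := Complex.normSq_pos.2 hne
      have h3 : 0 < z.im * z.im := mul_self_pos.2 hz
      have : -z.im / Complex.normSq (z - a) * z.im = -(z.im * z.im / Complex.normSq (z - a)) := by
        ring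
      rw [this]
      exact neg_neg_of_pos (div_pos h3 h2)
    rw [Multiset.map_cons, Multiset.sum_cons, Complex.add_im, add_mul]
    rcases ih (fun r hr => hs r (Multiset.mem_cons_of_mem hr)) with rfl | h
    · simpa using h1
    · linarith

theorem logder (p : ℝ[X]) (hp : ∀ z : ℂ, aeval z p = 0 → z.im = 0) (z : ℂ)
    (hz : z.im ≠ 0) (w : ℂ) (hw : aeval z (derivative p) = w * aeval z p) :
    w = 0 ∨ w.im * z.im < 0 := by
  have hne : aeval z p ≠ 0 := fun h => hz (hp z h)
  have hne' : (p.map (algebraMap ℝ ℂ)).eval z ≠ 0 := by rwa [eval_map_algebraMap]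
  have h := (IsAlgClosed.splits (p.map (algebraMap ℝ ℂ))).eval_derivative_div_eval_of_ne_zero hne'
  rw [derivative_map, eval_map_algebraMap, eval_map_algebraMap, hw, mul_div_cancel_right₀ _ hne] at h
  rcases sum_im z hz (p.map (algebraMap ℝ ℂ)).roots (fun r hr => hp r (by
    have := isRoot_of_mem_roots hr
    rwa [IsRoot.def, eval_map_algebraMap] at this)) with h0 | h1
  · left; rw [h, h0]; simp
  · right; rw [h]; exact h1

theorem hyp_one (p : ℝ[X]) (hp : Hyperbolic p) : Hyperbolic (p - derivative p) := by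
  by_cases hp0 : p = 0
  · left; simp [hp0]
  right
  intro z hz
  by_contra him
  rw [map_sub, sub_eq_zero] at hz
  rcases logder p (hp.resolve_left hp0) z him 1 (by rw [one_mul, hz]) with h | h
  · exact one_ne_zero h
  · simp at h

theorem hyp_X (p : ℝ[X]) (hp : Hyperbolic p) : Hyperbolic (X * p - derivative p) := by
  by_cases hp0 : p = 0
  · left; simp [hp0]
  right
  intro z hz
  by_contra him
  rw [map_sub, sub_eq_zero, map_mul, aeval_X] at hz
  rcases logder p (hp.resolve_left hp0) z him z hz.symm with h | h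
  · exact him (by simp [h])
  · nlinarith [mul_self_nonneg z.im]

theorem hyp_taylor (p : ℝ[X]) (hp : Hyperbolic p) : Hyperbolic (taylor 1 p) := by
  rcases hp with rfl | hp
  · left; simp
  right
  intro z hz
  rw [taylor_apply, aeval_comp] at hz
  simpa using hp _ hz

theorem taylor_one (f : ℝ[X]) (N : ℕ) (hN : f.natDegree < N) :
    taylor 1 f = ∑ k ∈ Finset.range N, C (1 / (k.factorial : ℝ)) * derivative^[k] f := by
  apply Polynomial.funext
  intro x
  have h1 : (taylor 1 f).eval x = (taylor x f).eval 1 := by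
    rw [taylor_eval, taylor_eval, add_comm]
  rw [h1, eval_eq_sum_range' (n := N) (by rwa [natDegree_taylor]), eval_finsetSum]
  refine Finset.sum_congr rfl fun k _ => ?_
  have h2 : derivative^[k] f = k.factorial • hasseDeriv k f := by
    rw [← factorial_smul_hasseDeriv]; rfl
  have h3 : (k.factorial : ℝ) ≠ 0 := by exact_mod_cast k.factorial_ne_zero
  rw [taylor_coeff, h2, one_pow, mul_one, eval_mul, eval_C, eval_smul, nsmul_eq_mul]
  field_simp

/-- The operator `(x - D) (1 - D) exp D`. -/
noncomputable def T : ℝ[X] →ₗ[ℝ] ℝ[X] :=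
  (LinearMap.mulLeft ℝ X - derivative) ∘ₗ (LinearMap.id - derivative) ∘ₗ taylor 1

theorem T_apply (f : ℝ[X]) : T f = X * (taylor 1 f - derivative (taylor 1 f)) -
    derivative (taylor 1 f - derivative (taylor 1 f)) := by
  simp [T]

/-- Shifting a coefficient sequence. -/
def shift (a : ℕ → ℝ) : ℕ → ℝ
  | 0 => 0
  | k + 1 => a k

theorem deriv_sum (a : ℕ → ℝ) (f : ℝ[X]) (N : ℕ) (hN : f.natDegree < N) :
    derivative (∑ k ∈ Finset.range N, C (a k) * derivative^[k] f) =
      ∑ k ∈ Finset.range N, C (shift a k) * derivative^[k] f := by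
  have h1 : ∑ k ∈ Finset.range (N + 1), C (shift a k) * derivative^[k] f =
      ∑ k ∈ Finset.range N, C (shift a k) * derivative^[k] f := by
    rw [Finset.sum_range_succ, iterate_derivative_eq_zero hN, mul_zero, add_zero]
  rw [← h1, Finset.sum_range_succ', derivative_sum]
  simp [shift, Function.iterate_succ_apply', -Function.iterate_succ]

/-- The coefficients of `(1 - D) exp D`. -/
noncomputable def c (k : ℕ) : ℝ := 1 / (k.factorial : ℝ) - shift (fun j => 1 / (j.factorial : ℝ)) k

/-- The coefficient polynomials of `T`. -/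
noncomputable def Q (k : ℕ) : ℝ[X] := C (c k) * X - C (shift c k)

theorem T_repr (f : ℝ[X]) :
    T f = ∑ k ∈ Finset.range (f.natDegree + 1), Q k * derivative^[k] f := by
  have hN := Nat.lt_succ_self f.natDegree
  have h1 : taylor 1 f - derivative (taylor 1 f) =
      ∑ k ∈ Finset.range (f.natDegree + 1), C (c k) * derivative^[k] f := by
    rw [taylor_one f _ hN, deriv_sum _ f _ hN, ← Finset.sum_sub_distrib]
    refine Finset.sum_congr rfl fun k _ => ?_
    rw [c, C_sub, sub_mul]
  rw [T_apply, h1, deriv_sum _ f _ hN, Finset.mul_sum, ← Finset.sum_sub_distrib]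
  refine Finset.sum_congr rfl fun k _ => ?_
  rw [Q]; ring

theorem c_ne (k : ℕ) : c (k + 2) ≠ 0 := by
  have h : (((k + 1).factorial : ℕ) : ℝ) < ((k + 2).factorial : ℕ) := by
    exact_mod_cast (Nat.factorial_lt (by omega)).2 (by omega)
  have h0 : (0 : ℝ) < ((k + 1).factorial : ℕ) := by exact_mod_cast (k + 1).factorial_pos
  have := one_div_lt_one_div_of_lt h0 h
  simp only [c, shift]
  linarith

theorem result : ∃ (T : ℝ[X] →ₗ[ℝ] ℝ[X]) (Q : ℕ → ℝ[X]),
    (∀ f, T f = ∑ k ∈ Finset.range (f.natDegree + 1), Q k * derivative^[k] f) ∧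
    (∀ k, Q k ≠ 0) ∧
    (∀ p, Hyperbolic p → Hyperbolic (T p)) ∧
    3 ≤ Module.rank ℝ (LinearMap.range T) ∧
    (Q 1).degree < (Q 0).degree := by
  have hQ0 : Q 0 = X := by simp [Q, c, shift]
  have hQ1 : Q 1 = -1 := by simp [Q, c, shift]
  refine ⟨T, Q, T_repr, fun k => ?_, fun p hp => ?_, ?_, ?_⟩
  · rcases k with _ | _ | k
    · rw [hQ0]; exact X_ne_zero
    · rw [show 0 + 1 = 1 from rfl, hQ1]; simp
    · intro h
      have := congrArg (fun p => coeff p 1) h
      simp only [Q, coeff_sub, coeff_C_mul, coeff_X_one, mul_one, coeff_zero, coeff_C_succ,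
        sub_zero] at this
      exact c_ne k this
  · rw [T_apply]
    exact hyp_X _ (hyp_one _ (hyp_taylor _ hp))
  · have e0 : T 1 = X := by simp [T_apply]
    have e1 : T X = X ^ 2 - 1 := by simp [T_apply, taylor_apply]; ring
    have e2 : T (X ^ 2) = X ^ 3 - 3 * X := by
      have t1 : taylor 1 (X ^ 2 : ℝ[X]) = (X + 1) * (X + 1) := by simp [taylor_apply]; ring
      have t2 : derivative ((X + 1) * (X + 1) : ℝ[X]) = (X + 1) + (X + 1) := by simp
      have t3 : derivative ((X + 1) * (X + 1) - ((X + 1) + (X + 1)) : ℝ[X]) = X + X := by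
        simp; ring
      rw [T_apply, t1, t2, t3]; ring
    let v : Fin 3 → LinearMap.range T :=
      ![⟨X, 1, e0⟩, ⟨X ^ 2 - 1, X, e1⟩, ⟨X ^ 3 - 3 * X, X ^ 2, e2⟩]
    have hv : LinearIndependent ℝ v := by
      rw [Fintype.linearIndependent_iff]
      intro g hg
      have h := congrArg Subtype.val hg
      simp only [Fin.sum_univ_three, v, Matrix.cons_val_zero, Matrix.cons_val_one,
        Matrix.cons_val_two, Matrix.head_cons, Matrix.tail_cons, Submodule.coe_add,
        Submodule.coe_smul, ZeroMemClass.coe_zero] at h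
      have a0 := congrArg (eval 0) h
      have a1 := congrArg (eval 1) h
      have a2 := congrArg (eval 2) h
      simp at a0 a1 a2
      intro i
      fin_cases i <;> simp <;> linarith
    simpa using hv.cardinal_le_rank
  · rw [hQ0, hQ1]; simp

end Pool.Agent.Results.MP_6bb0fd_an.Counter
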